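import Pool.Agent.TH943.LG.Bd

/-!
The order of vanishing of the `L`-functions of the quadratic twists of the Legendre curve and of its
pullbacks over `k(t)`.
-/

set_option autoImplicit false
set_option linter.all false
set_option maxHeartbeats 4000000

open Polynomial Pool.Agent.W343.BSD Pool.Agent.W313.Gr

namespace Pool.Agent.Results.MP_48b749_nt.LegendrePrimeTwists

section defs

variable {k : Type} [Field k]

/-- The coefficient `a` of the short form `y ^ 2 = x ^ 3 + a x + b` of
`y ^ 2 = x (x - D) (x - D h)` (replace `x` by `x + (D + D h) / 3`), the quadratic twist by `D` of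
`y ^ 2 = x (x - 1) (x - h)`. -/
noncomputable def coeffA (h D : k[X]) : RatFunc k :=
  -(algebraMap k[X] (RatFunc k) (D ^ 2 * (1 - h + h ^ 2))) / 3

/-- The coefficient `b` of the same short form. -/
noncomputable def coeffB (h D : k[X]) : RatFunc k :=
  -(algebraMap k[X] (RatFunc k) (D ^ 3 * ((1 + h) * (2 - h) * (1 - 2 * h)))) / 27

open Classical in
/-- The monic irreducible factors of a polynomial. -/
noncomputable def primes (g : k[X]) : Finset k[X] :=
  (UniqueFactorizationMonoid.normalizedFactors g).toFinset

/-- `L(T) = L(T, E)` is an integral polynomial `P(T)`, of degree `N` say, and satisfies the functional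
equation `T ^ N L(T ^ (-1) / q) = ε L(T / q)`. -/
def HasSign (k : Type) {K : Type} [Field k] [Field K] [Algebra k K] (a b : K) (ε : ℤ) : Prop :=
  ∃ P : ℤ[X], S.Lfun k a b = (P : PowerSeries ℤ) ∧ ∀ x : ℚ, x ≠ 0 →
    x ^ P.natDegree * (P.map (Int.castRingHom ℚ)).eval (x * (Nat.card k : ℚ))⁻¹ =
      ε * (P.map (Int.castRingHom ℚ)).eval (x / (Nat.card k : ℚ))

end defs

section proof

variable {k : Type} [Field k] [Finite k]

theorem coeffA_eq (h6 : (6 : k) ≠ 0) (h D : k[X]) : coeffA h D =
    W309.RK.aOf (W309.RF.A D) (W309.RF.A (D * h)) := by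
  rw [W309.RK.aOf_eq (W309.RK.three_K (k := k) h6)]
  unfold coeffA
  show -(algebraMap k[X] (RatFunc k) (D ^ 2 * (1 - h + h ^ 2))) / 3 =
    -(algebraMap k[X] (RatFunc k) D ^ 2 - algebraMap k[X] (RatFunc k) D *
      algebraMap k[X] (RatFunc k) (D * h) + algebraMap k[X] (RatFunc k) (D * h) ^ 2) / 3
  simp only [map_mul, map_add, map_sub, map_pow, map_one]
  ring

theorem coeffB_eq (h6 : (6 : k) ≠ 0) (h D : k[X]) : coeffB h D =
    W309.RK.bOf (W309.RF.A D) (W309.RF.A (D * h)) := by
  rw [W309.RK.bOf_eq (W309.RK.three_K (k := k) h6)]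
  unfold coeffB
  show -(algebraMap k[X] (RatFunc k) (D ^ 3 * ((1 + h) * (2 - h) * (1 - 2 * h)))) / 27 =
    -((algebraMap k[X] (RatFunc k) D + algebraMap k[X] (RatFunc k) (D * h)) *
      (2 * algebraMap k[X] (RatFunc k) D - algebraMap k[X] (RatFunc k) (D * h)) *
      (algebraMap k[X] (RatFunc k) D - 2 * algebraMap k[X] (RatFunc k) (D * h))) / 27
  simp only [map_mul, map_add, map_sub, map_pow, map_one, map_ofNat]
  ring

end proof

/-- Let `k` be the field with `q` elements, of characteristic at least `5`, and `h` in `k[t]` of odd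
degree with `h` and `h - 1` irreducible (for instance `h = t`). For a nonzero polynomial `D` prime to
`h (h - 1)` let `E_D : D y ^ 2 = x (x - 1) (x - h)` over `k(t)`. The `L`-function of `E_D` vanishes at
`T = 1 / q` to order at most `2 ∑ 2 ^ v₂(deg P)`, minus `1` if the degree of `D` is odd; the sum is
over the monic irreducible factors `P` of `D`. So the order `r` is `0` if `D` is constant. If `D` is
irreducible of odd degree, then `r ≤ 1`; if also the functional equation holds with the sign
`ε = ± 1`, then `r = 0` for `ε = 1` and `r = 1` for `ε = -1`. -/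
theorem result (k : Type) [Field k] [Finite k] (h6 : (6 : k) ≠ 0) (h : k[X])
    (hh : Irreducible h) (hh1 : Irreducible (h - 1)) (hodd : Odd h.natDegree) (D : k[X])
    (hD : D ≠ 0) (hcop : IsCoprime D (h * (h - 1))) :
    (∀ m : ℕ, S.VanishesTo k (coeffA h D) (coeffB h D) m →
      m + (if Odd D.natDegree then 1 else 0) ≤
        2 * ∑ P ∈ primes D, 2 ^ padicValNat 2 P.natDegree) ∧
    (D.natDegree = 0 → ∀ r : ℕ, HasOrder k (coeffA h D) (coeffB h D) r → r = 0) ∧
    (Irreducible D → Odd D.natDegree → ∀ r : ℕ, HasOrder k (coeffA h D) (coeffB h D) r →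
      r ≤ 1 ∧
      (HasSign k (coeffA h D) (coeffB h D) 1 → r = 0 ∧
        (rank (coeffA h D) (coeffB h D) ≤ r → rank (coeffA h D) (coeffB h D) = r)) ∧
      (HasSign k (coeffA h D) (coeffB h D) (-1) → r = 1)) := by
  classical
  have hbd : ∀ m : ℕ, S.VanishesTo k (coeffA h D) (coeffB h D) m →
      m + (if Odd D.natDegree then 1 else 0) ≤
        2 * ∑ P ∈ primes D, 2 ^ padicValNat 2 P.natDegree := by
    intro m hm
    rw [coeffA_eq h6, coeffB_eq h6] at hm
    exact TH943.LG.bound k h6 h hh hh1 hodd D hD hcop m hm
  have hord : ∀ r : ℕ, HasOrder k (coeffA h D) (coeffB h D) r →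
      r + (if Odd D.natDegree then 1 else 0) ≤
        2 * ∑ P ∈ primes D, 2 ^ padicValNat 2 P.natDegree := by
    rintro r ⟨P, hP, hPr⟩
    obtain ⟨G, hG⟩ := TH943.KD.dvd_of_mult (Nat.card_pos (α := k)).ne' hPr
    exact hbd r ⟨G, by rw [hP, hG]⟩
  refine ⟨hbd, ?_, ?_⟩
  · intro hc r hr
    have h1 := hord r hr
    have h2 : primes D = ∅ := by
      rw [Finset.eq_empty_iff_forall_notMem]
      intro P hP
      have h3 := (TH943.LG.mem_primes hD).1 hP
      have h4 := natDegree_le_of_dvd h3.2.2 hD
      have h5 := h3.2.1.natDegree_pos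
      omega
    rw [h2, Finset.sum_empty] at h1
    omega
  · intro hirr ho r hr
    have h1 := hord r hr
    have h2 : primes D = {normalize D} := by
      ext P
      constructor
      · intro hP
        have h3 := (TH943.LG.mem_primes hD).1 hP
        have h4 : Associated P D := h3.2.1.associated_of_dvd hirr h3.2.2
        rw [Finset.mem_singleton, ← h3.1.normalize_eq_self]
        exact normalize_eq_normalize h4.dvd h4.symm.dvd
      · intro hP
        rw [Finset.mem_singleton] at hP
        refine (TH943.LG.mem_primes hD).2 ?_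
        rw [hP]
        exact ⟨Polynomial.monic_normalize hD, (normalize_associated D).symm.irreducible hirr,
          (normalize_associated D).dvd⟩
    have h3 : (normalize D).natDegree = D.natDegree :=
      natDegree_eq_of_degree_eq (degree_eq_degree_of_associated (normalize_associated D))
    have h4 : ¬ 2 ∣ D.natDegree := by
      intro h2
      obtain ⟨j, hj⟩ := ho
      omega
    rw [h2, Finset.sum_singleton, h3, padicValNat.eq_zero_of_not_dvd h4, pow_zero, if_pos ho] at h1
    have hr1 : r ≤ 1 := by omega
    have hsign : ∀ ε : ℤ, HasSign k (coeffA h D) (coeffB h D) ε → (ε : ℚ) = (-1) ^ r := by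
      rintro ε ⟨P, hP, hfe⟩
      obtain ⟨Q, hQ, hQr⟩ := hr
      have h5 : P = Q := Polynomial.coe_injective _ (hP.symm.trans hQ)
      rw [← h5] at hQr
      have hdeg : (P.map (Int.castRingHom ℚ)).natDegree = P.natDegree :=
        Polynomial.natDegree_map_eq_of_injective Int.cast_injective P
      have hq : (Nat.card k : ℚ) ≠ 0 := by exact_mod_cast (Nat.card_pos (α := k)).ne'
      have hP0 : P.map (Int.castRingHom ℚ) ≠ 0 := by
        rw [Ne, Polynomial.map_eq_zero_iff Int.cast_injective]
        rintro rfl
        have hE : 4 * coeffA h D ^ 3 + 27 * coeffB h D ^ 2 ≠ 0 := by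
          rw [coeffA_eq h6, coeffB_eq h6]
          refine W309.RK.hdisc (k := k) h6 (W309.RF.A_ne hD)
            (W309.RF.A_ne (mul_ne_zero hD hh.ne_zero)) ?_
          intro hE
          have h7 : D = D * h := by
            have := (IsFractionRing.injective k[X] (RatFunc k)) hE
            exact this
          have h8 : D * (h - 1) = 0 := by linear_combination -h7
          exact (mul_ne_zero hD hh1.ne_zero) h8
        have hu := unit_coeff (k := k) hE
        rw [hP] at hu
        simp at hu
      have h6' := TH943.LG.parity hq hP0 (ε := (ε : ℚ)) (by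
        intro x hx
        rw [hdeg]
        exact hfe x hx)
      rw [hQr] at h6'
      exact h6'
    refine ⟨hr1, fun hs => ?_, fun hs => ?_⟩
    · have h5 := hsign 1 hs
      have hr0 : r = 0 := by
        rcases Nat.eq_zero_or_pos r with h0 | h0
        · exact h0
        · exfalso
          have : r = 1 := by omega
          rw [this] at h5
          norm_num at h5
      refine ⟨hr0, fun hle => le_antisymm hle ?_⟩
      rw [hr0]
      simp
    · have h5 := hsign (-1) hs
      rcases Nat.eq_zero_or_pos r with h0 | h0
      · exfalso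
        rw [h0] at h5
        norm_num at h5
      · omega

end Pool.Agent.Results.MP_48b749_nt.LegendrePrimeTwists
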